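import Pool.Agent.Lib.MP_72b8ed_an.Lift

/-!
# Master certificates and `Ω_ϑ¹` for lifted sequences
-/

open scoped ComplexOrder Topology
open Filter Set

namespace Pool.Agent.Lib.MP_72b8ed_an

variable {g : ℕ}

theorem sum_antidiagonal_split (f : (Fin g →₀ ℕ) × (Fin g →₀ ℕ) → ℝ) (b : Fin g →₀ ℕ)
    (hb : b ≠ 0) :
    ∑ p ∈ Finset.HasAntidiagonal.antidiagonal b, f p =
      ∑ p ∈ (Finset.HasAntidiagonal.antidiagonal b).filter (fun p => p.1 ≠ 0 ∧ p.2 ≠ 0), f p +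
        (f (0, b) + f (b, 0)) := by
  classical
  rw [← Finset.sum_filter_add_sum_filter_not _ (fun p : (Fin g →₀ ℕ) × (Fin g →₀ ℕ) =>
    p.1 ≠ 0 ∧ p.2 ≠ 0)]
  congr 1
  have : (Finset.HasAntidiagonal.antidiagonal b).filter
      (fun p : (Fin g →₀ ℕ) × (Fin g →₀ ℕ) => ¬ (p.1 ≠ 0 ∧ p.2 ≠ 0)) = {(0, b), (b, 0)} := by
    ext ⟨p, q⟩
    simp only [Finset.mem_filter, Finset.HasAntidiagonal.mem_antidiagonal, Finset.mem_insert,
      Finset.mem_singleton, Prod.mk.injEq]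
    constructor
    · rintro ⟨h1, h2⟩
      by_cases hp : p = 0
      · left; subst hp; exact ⟨rfl, by simpa using h1⟩
      · right
        have hq : q = 0 := by
          by_contra hq
          exact h2 ⟨hp, hq⟩
        subst hq
        exact ⟨by simpa using h1, rfl⟩
    · rintro (⟨rfl, rfl⟩ | ⟨rfl, rfl⟩)
      · simp
      · simp
  rw [this, Finset.sum_pair]
  intro h
  exact hb (Prod.mk.inj h).1.symm

theorem isMasterCertificate_of (kc ϑ h : (Fin g →₀ ℕ) → ℝ)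
    (hk0 : kc 0 = 1) (hϑ0 : ϑ 0 = 0) (hϑ : ∀ b, 0 ≤ ϑ b) (hh : ∀ b, 0 ≤ h b)
    (hdisj : ∀ b, ϑ b = 0 ∨ h b = 0)
    (hpos : ∀ j, 0 < kc (Finsupp.single j 1))
    (hconv : ∀ b, b ≠ 0 →
      ∑ p ∈ Finset.HasAntidiagonal.antidiagonal b, ϑ p.1 * kc p.2 = kc b + h b) :
    IsMasterCertificate kc ϑ := by
  classical
  have key : ∀ b, b ≠ 0 → kc b -
      ∑ p ∈ (Finset.HasAntidiagonal.antidiagonal b).filter (fun p => p.1 ≠ 0 ∧ p.2 ≠ 0),
        ϑ p.1 * kc p.2 = ϑ b - h b := by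
    intro b hb
    have h1 := hconv b hb
    rw [sum_antidiagonal_split (fun p => ϑ p.1 * kc p.2) b hb] at h1
    simp only [hϑ0, hk0, zero_mul, mul_one] at h1
    linarith
  refine ⟨hϑ0, ?_, ?_⟩
  · intro j
    have hne : (Finsupp.single j 1 : Fin g →₀ ℕ) ≠ 0 := by simp
    have h1 := key _ hne
    have hempty : (Finset.HasAntidiagonal.antidiagonal (Finsupp.single j 1 : Fin g →₀ ℕ)).filter
        (fun p => p.1 ≠ 0 ∧ p.2 ≠ 0) = ∅ := by
      rw [Finset.filter_eq_empty_iff]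
      rintro ⟨p, q⟩ hpq ⟨hp, hq⟩
      have h2 : p + q = Finsupp.single j 1 := Finset.HasAntidiagonal.mem_antidiagonal.1 hpq
      have h3 : p.degree + q.degree = 1 := by
        rw [← map_add, h2, Finsupp.degree_single]
      have h4 : p.degree ≠ 0 := fun h => hp ((Finsupp.degree_eq_zero_iff p).1 h)
      have h5 : q.degree ≠ 0 := fun h => hq ((Finsupp.degree_eq_zero_iff q).1 h)
      omega
    rw [hempty, Finset.sum_empty, sub_zero] at h1
    have hp := hpos j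
    have h2 := hh (Finsupp.single j 1)
    rcases hdisj (Finsupp.single j 1) with h3 | h3
    · linarith
    · linarith
  · intro b hb
    have hne : b ≠ 0 := by
      rintro rfl
      simp at hb
    rw [key b hne]
    rcases hdisj b with h3 | h3
    · rw [h3, max_eq_left]
      have := hh b
      linarith
    · rw [h3, sub_zero, max_eq_right (hϑ b)]

theorem hasSum_lift_real (c : ℕ → ℝ) (hc : ∀ n, 0 ≤ c n) (t : Fin g → ℝ) (ht : ∀ j, 0 ≤ t j)
    {a : ℝ} (ha : HasSum (fun n => c n * (∑ j, t j) ^ n) a) :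
    HasSum (fun b : Fin g →₀ ℕ => lift c b * ∏ j, t j ^ b j) a := by
  have h1 := hasSum_lift c (fun j => (t j : ℂ)) (a := (a : ℂ)) ?_ ?_
  · rw [← Complex.hasSum_ofReal]
    convert h1 using 2 with b
    push_cast
    rfl
  · refine ha.summable.congr fun n => ?_
    rw [abs_of_nonneg (hc n)]
    congr 2
    refine Finset.sum_congr rfl fun j _ => ?_
    rw [Complex.norm_real, Real.norm_eq_abs, abs_of_nonneg (ht j)]
  · have h2 := Complex.hasSum_ofReal.2 ha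
    convert h2 using 2 with n
    push_cast
    rfl

/-- The sum in the definition of `Ω_ϑ¹`. -/
noncomputable def omegaSum (ϑ : (Fin g →₀ ℕ) → ℝ) (x : Fin g → ℂ) : ENNReal :=
  ∑' b : {b : Fin g →₀ ℕ // b ≠ 0}, ENNReal.ofReal (ϑ b.1 * ∏ j, ‖x j‖ ^ (2 * b.1 j))

theorem omegaSum_eq_tsum (ϑ : (Fin g →₀ ℕ) → ℝ) (hϑ0 : ϑ 0 = 0) (x : Fin g → ℂ) :
    omegaSum ϑ x = ∑' b : Fin g →₀ ℕ, ENNReal.ofReal (ϑ b * ∏ j, ‖x j‖ ^ (2 * b j)) := by
  unfold omegaSum
  have := tsum_subtype_eq_of_support_subset (f := fun b : Fin g →₀ ℕ =>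
    ENNReal.ofReal (ϑ b * ∏ j, ‖x j‖ ^ (2 * b j))) (s := {b | b ≠ 0}) ?_
  · exact this
  · intro b hb
    rintro rfl
    simp [hϑ0] at hb

theorem omegaSum_mono {ϑ : (Fin g →₀ ℕ) → ℝ} (hϑ : ∀ b, 0 ≤ ϑ b) {x y : Fin g → ℂ}
    (hxy : ∀ j, ‖x j‖ ≤ ‖y j‖) : omegaSum ϑ x ≤ omegaSum ϑ y := by
  unfold omegaSum
  refine ENNReal.tsum_le_tsum fun b => ENNReal.ofReal_le_ofReal ?_
  refine mul_le_mul_of_nonneg_left ?_ (hϑ _)
  exact Finset.prod_le_prod (fun j _ => by positivity)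
    (fun j _ => pow_le_pow_left₀ (norm_nonneg _) (hxy j) _)

theorem lift_nonneg {c : ℕ → ℝ} (hc : ∀ n, 0 ≤ c n) (b : Fin g →₀ ℕ) : 0 ≤ lift c b :=
  mul_nonneg (hc _) (Nat.cast_nonneg _)

theorem lift_zero (c : ℕ → ℝ) : lift c (0 : Fin g →₀ ℕ) = c 0 := by
  simp [lift, multinomial_zero']

theorem hasSum_omega (c : ℕ → ℝ) (hc : ∀ n, 0 ≤ c n)
    (x : Fin g → ℂ) {a : ℝ} (ha : HasSum (fun n => c n * (∑ j, ‖x j‖ ^ 2) ^ n) a) :
    HasSum (fun b : Fin g →₀ ℕ => lift c b * ∏ j, ‖x j‖ ^ (2 * b j)) a := by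
  have := hasSum_lift_real c hc (fun j => ‖x j‖ ^ 2) (fun j => by positivity) ha
  convert this using 3 with b
  refine Finset.prod_congr rfl fun j _ => ?_
  rw [pow_mul]

theorem omegaSum_lift (c : ℕ → ℝ) (hc0 : c 0 = 0) (hc : ∀ n, 0 ≤ c n)
    (x : Fin g → ℂ) {a : ℝ} (ha : HasSum (fun n => c n * (∑ j, ‖x j‖ ^ 2) ^ n) a) :
    omegaSum (lift c) x = ENNReal.ofReal a := by
  rw [omegaSum_eq_tsum _ (by rw [lift_zero, hc0])]
  have h := hasSum_omega c hc x ha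
  rw [← h.tsum_eq, ENNReal.ofReal_tsum_of_nonneg _ h.summable]
  intro b
  exact mul_nonneg (lift_nonneg hc b) (by positivity)

/-- `Ω_ϑ¹` for a lifted sequence with `∑ cₙ rⁿ = F r < 1` for `r < R` and `F r → 1` as `r → R`. -/
theorem omegaOne_lift (c : ℕ → ℝ) (hc0 : c 0 = 0) (hc : ∀ n, 0 ≤ c n) (R : ℝ) (hR : 0 < R)
    (F : ℝ → ℝ) (hF : ∀ r, 0 ≤ r → r < R → HasSum (fun n => c n * r ^ n) (F r))
    (hF1 : ∀ r, 0 ≤ r → r < R → F r < 1)
    (hlim : ∀ ε : ℝ, 0 < ε → ∃ r, 0 ≤ r ∧ r < R ∧ 1 - ε < F r) :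
    OmegaOne (lift c : (Fin g →₀ ℕ) → ℝ) = {x | ∑ j, ‖x j‖ ^ 2 < R} := by
  have hopen : IsOpen {x : Fin g → ℂ | ∑ j, ‖x j‖ ^ 2 < R} :=
    isOpen_lt (by fun_prop) continuous_const
  ext x
  constructor
  · rintro ⟨_, hx⟩
    change omegaSum (lift c) x < 1 at hx
    by_contra hcon
    simp only [mem_ofPred_eq, not_lt] at hcon
    have hρ : 0 < ∑ j, ‖x j‖ ^ 2 := lt_of_lt_of_le hR hcon
    -- scale down
    have hle : ∀ r, 0 ≤ r → r < R → ENNReal.ofReal (F r) ≤ omegaSum (lift c) x := by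
      intro r hr0 hr
      set ρ := ∑ j, ‖x j‖ ^ 2 with hρdef
      let l : ℝ := Real.sqrt (r / ρ)
      have hl0 : 0 ≤ l := Real.sqrt_nonneg _
      have hl1 : l ≤ 1 := by
        rw [Real.sqrt_le_one]
        rw [div_le_one hρ]
        linarith
      have hl2 : l ^ 2 = r / ρ := Real.sq_sqrt (by positivity)
      have hsum : ∑ j, ‖(l : ℂ) * x j‖ ^ 2 = r := by
        simp only [norm_mul, Complex.norm_real, Real.norm_eq_abs, abs_of_nonneg hl0, mul_pow]
        rw [← Finset.mul_sum, ← hρdef, hl2]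
        field_simp
      have h1 : omegaSum (lift c) (fun j => (l : ℂ) * x j) = ENNReal.ofReal (F r) := by
        apply omegaSum_lift c hc0 hc
        rw [hsum]
        exact hF r hr0 hr
      rw [← h1]
      refine omegaSum_mono (lift_nonneg hc) fun j => ?_
      rw [norm_mul, Complex.norm_real, Real.norm_eq_abs, abs_of_nonneg hl0]
      exact mul_le_of_le_one_left (norm_nonneg _) hl1
    have h1 : (1 : ENNReal) ≤ omegaSum (lift c) x := by
      by_contra hlt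
      rw [not_le] at hlt
      set y := omegaSum (lift c) x with hy
      have hyt : y ≠ ⊤ := ne_top_of_lt hlt
      have hy1 : y.toReal < 1 := by
        rw [← ENNReal.toReal_one]
        exact (ENNReal.toReal_lt_toReal hyt ENNReal.one_ne_top).2 hlt
      obtain ⟨r, hr0, hr, hr2⟩ := hlim (1 - y.toReal) (by linarith)
      have h2 := hle r hr0 hr
      have h3 : F r ≤ y.toReal := by
        rw [ENNReal.ofReal_le_iff_le_toReal hyt] at h2
        exact h2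
      linarith
    exact absurd hx (not_lt.2 h1)
  · intro hx
    simp only [mem_ofPred_eq] at hx
    have hterm : ∀ y : Fin g → ℂ, ∑ j, ‖y j‖ ^ 2 < R →
        BddAbove (Set.range fun b : Fin g →₀ ℕ => lift c b * ∏ j, ‖y j‖ ^ (2 * b j)) := by
      intro y hy
      have hy0 : 0 ≤ ∑ j, ‖y j‖ ^ 2 := Finset.sum_nonneg fun j _ => by positivity
      have h := hasSum_omega c hc y (hF _ hy0 hy)
      refine ⟨F (∑ j, ‖y j‖ ^ 2), ?_⟩
      rintro _ ⟨b, rfl⟩
      exact le_hasSum h b fun b' _ => mul_nonneg (lift_nonneg hc b') (by positivity)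
    refine ⟨?_, ?_⟩
    · exact interior_maximal (s := {x : Fin g → ℂ | BddAbove (Set.range fun b : Fin g →₀ ℕ =>
        lift c b * ∏ j, ‖x j‖ ^ (2 * b j))}) (fun y hy => hterm y hy) hopen hx
    · change omegaSum (lift c) x < 1
      have hx0 : 0 ≤ ∑ j, ‖x j‖ ^ 2 := Finset.sum_nonneg fun j _ => by positivity
      rw [omegaSum_lift c hc0 hc x (hF _ hx0 hx)]
      rw [← ENNReal.ofReal_one]
      exact (ENNReal.ofReal_lt_ofReal_iff one_pos).2 (hF1 _ hx0 hx)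

end Pool.Agent.Lib.MP_72b8ed_an
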