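import Mathlib

/-!
# Definitions for MP_72b8ed_an

Kernels on subsets of `ℂ^g`, diagonal kernels, complete Pick kernels normalized at `0`, master
certificates and the sets `Ω_ϑ`, `Ω_ϑ¹` attached to them.
-/

open scoped ComplexOrder Topology
open Filter Set

namespace Pool.Agent.Lib.MP_72b8ed_an

variable {g : ℕ}

/-- `K` is a kernel on `Ω`: the function `Ω × Ω → ℂ` is positive semidefinite. -/
def IsKernelOn (Ω : Set (Fin g → ℂ)) (K : (Fin g → ℂ) → (Fin g → ℂ) → ℂ) : Prop :=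
  (Matrix.of fun z w : Ω => K z w).PosSemidef

/-- `K` is holomorphic in the first and antiholomorphic in the second variable on `Ω × Ω`. -/
def IsHolomorphicOn (Ω : Set (Fin g → ℂ)) (K : (Fin g → ℂ) → (Fin g → ℂ) → ℂ) : Prop :=
  (∀ w ∈ Ω, DifferentiableOn ℂ (fun z => K z w) Ω) ∧
    ∀ z ∈ Ω, DifferentiableOn ℂ (fun w => star (K z w)) Ω

/-- `K(z,w) = ∑ₐ cₐ zᵃ w̄ᵃ` for all `(z,w)` near `(0,0)`. -/
def HasDiagonalExpansion (K : (Fin g → ℂ) → (Fin g → ℂ) → ℂ) (c : (Fin g →₀ ℕ) → ℂ) : Prop :=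
  ∀ᶠ p in 𝓝 ((0 : Fin g → ℂ), (0 : Fin g → ℂ)),
    HasSum (fun a : Fin g →₀ ℕ => c a * ∏ j, (p.1 j * star (p.2 j)) ^ a j) (K p.1 p.2)

/-- `k` is a normalized diagonal holomorphic kernel on `Ω` with coefficients `kc`. -/
structure IsNormalizedDiagonalKernelOn (Ω : Set (Fin g → ℂ))
    (k : (Fin g → ℂ) → (Fin g → ℂ) → ℂ) (kc : (Fin g →₀ ℕ) → ℝ) : Prop where
  isKernel : IsKernelOn Ω k
  isHolomorphic : IsHolomorphicOn Ω k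
  coeff_zero : kc 0 = 1
  coeff_pos : ∀ a, 0 < kc a
  expansion : HasDiagonalExpansion k (fun a => (kc a : ℂ))

/-- `s` is a complete Pick kernel on `Ω` normalized at `0`. -/
structure IsNormalizedCPOn (Ω : Set (Fin g → ℂ))
    (s : (Fin g → ℂ) → (Fin g → ℂ) → ℂ) : Prop where
  isKernel : IsKernelOn Ω s
  normalized : ∀ z ∈ Ω, s z 0 = 1
  ne_zero : ∀ z ∈ Ω, ∀ w ∈ Ω, s z w ≠ 0
  pick : IsKernelOn Ω (fun z w => 1 - 1 / s z w)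

/-- `ϑ` is the master certificate of the family `kc` of Taylor coefficients:
`ϑ₀ = 0`, `ϑ_{e_j} = k_{e_j}` and
`ϑ_b = max {0, k_b - ∑_{u+v=b; u,v≠0} ϑ_u k_v}` for `|b| ≥ 2`. -/
structure IsMasterCertificate (kc ϑ : (Fin g →₀ ℕ) → ℝ) : Prop where
  zero : ϑ 0 = 0
  single : ∀ j, ϑ (Finsupp.single j 1) = kc (Finsupp.single j 1)
  recursion : ∀ b : Fin g →₀ ℕ, 2 ≤ b.degree →
    ϑ b = max 0 (kc b -
      ∑ p ∈ (Finset.HasAntidiagonal.antidiagonal b).filter (fun p => p.1 ≠ 0 ∧ p.2 ≠ 0), ϑ p.1 * kc p.2)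

/-- `Ω_ϑ`, the interior of `{x : sup_b ϑ_b |x|^{2b} < ∞}`. -/
def OmegaTheta (ϑ : (Fin g →₀ ℕ) → ℝ) : Set (Fin g → ℂ) :=
  interior {x | BddAbove (Set.range fun b : Fin g →₀ ℕ => ϑ b * ∏ j, ‖x j‖ ^ (2 * b j))}

/-- `Ω_ϑ¹ = {x ∈ Ω_ϑ : ∑_{b≠0} ϑ_b |x|^{2b} < 1}` (the sum of nonnegative terms is taken in
`[0,∞]`). -/
def OmegaOne (ϑ : (Fin g →₀ ℕ) → ℝ) : Set (Fin g → ℂ) :=
  {x ∈ OmegaTheta ϑ |
    ∑' b : {b : Fin g →₀ ℕ // b ≠ 0}, ENNReal.ofReal (ϑ b.1 * ∏ j, ‖x j‖ ^ (2 * b.1 j)) < 1}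

end Pool.Agent.Lib.MP_72b8ed_an
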