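import Pool.Agent.Lib.MP_72b8ed_an.Defs

/-!
# Closure properties of kernels
-/

open scoped ComplexOrder Topology
open Filter Set

namespace Pool.Agent.Lib.MP_72b8ed_an

variable {g : ℕ} {Ω : Set (Fin g → ℂ)} {K L : (Fin g → ℂ) → (Fin g → ℂ) → ℂ}

theorem IsKernelOn.congr (hK : IsKernelOn Ω K) (h : ∀ z ∈ Ω, ∀ w ∈ Ω, K z w = L z w) :
    IsKernelOn Ω L := by
  unfold IsKernelOn at *
  convert hK using 2
  ext z w
  exact (h z z.2 w w.2).symm

theorem IsKernelOn.mono (hK : IsKernelOn Ω K) {Ω' : Set (Fin g → ℂ)} (h : Ω' ⊆ Ω) :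
    IsKernelOn Ω' K := by
  unfold IsKernelOn at *
  exact hK.submatrix (Set.inclusion h)

theorem IsKernelOn.add (hK : IsKernelOn Ω K) (hL : IsKernelOn Ω L) :
    IsKernelOn Ω (fun z w => K z w + L z w) := by
  unfold IsKernelOn at *
  exact Matrix.PosSemidef.add hK hL

theorem IsKernelOn.mul (hK : IsKernelOn Ω K) (hL : IsKernelOn Ω L) :
    IsKernelOn Ω (fun z w => K z w * L z w) := by
  unfold IsKernelOn at *
  exact Matrix.PosSemidef.hadamard hK hL

theorem isKernelOn_iff : IsKernelOn Ω K ↔ (∀ z ∈ Ω, ∀ w ∈ Ω, star (K z w) = K w z) ∧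
    ∀ x : Ω →₀ ℂ, 0 ≤ x.sum fun i xi => x.sum fun j xj => star xi * K i j * xj := by
  unfold IsKernelOn Matrix.PosSemidef
  constructor
  · rintro ⟨h1, h2⟩
    refine ⟨fun z hz w hw => ?_, h2⟩
    have := congrFun (congrFun h1 ⟨w, hw⟩) ⟨z, hz⟩
    simpa [Matrix.conjTranspose] using this
  · rintro ⟨h1, h2⟩
    refine ⟨?_, h2⟩
    ext z w
    simpa [Matrix.conjTranspose] using h1 w w.2 z z.2

theorem isKernelOn_rankOne (f : (Fin g → ℂ) → ℂ) :
    IsKernelOn Ω (fun z w => f z * star (f w)) := by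
  rw [isKernelOn_iff]
  refine ⟨fun z _ w _ => by simp [mul_comm], fun x => ?_⟩
  have : (x.sum fun i xi => x.sum fun j xj => star xi * (f i * star (f j)) * xj)
      = star (x.sum fun i xi => xi * star (f i)) * (x.sum fun i xi => xi * star (f i)) := by
    simp only [Finsupp.sum]
    rw [star_sum, Finset.sum_mul_sum]
    refine Finset.sum_congr rfl fun i _ => Finset.sum_congr rfl fun j _ => ?_
    simp only [star_mul', star_star]
    ring
  rw [this]
  exact star_mul_self_nonneg _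

theorem isKernelOn_const {c : ℂ} (hc : 0 ≤ c) : IsKernelOn Ω (fun _ _ => c) := by
  have h1 : IsKernelOn Ω (fun _ _ : (Fin g → ℂ) => ((Real.sqrt c.re : ℝ) : ℂ) * star ((Real.sqrt c.re : ℝ) : ℂ)) :=
    isKernelOn_rankOne (fun _ => ((Real.sqrt c.re : ℝ) : ℂ))
  refine h1.congr fun z _ w _ => ?_
  obtain ⟨hre, him⟩ := Complex.nonneg_iff.1 hc
  rw [Complex.star_def, Complex.conj_ofReal, ← Complex.ofReal_mul, Real.mul_self_sqrt hre]
  apply Complex.ext <;> simp [← him]

theorem isKernelOn_zero : IsKernelOn Ω (fun _ _ => 0) := isKernelOn_const le_rfl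

theorem isKernelOn_one : IsKernelOn Ω (fun _ _ => 1) := isKernelOn_const zero_le_one

theorem IsKernelOn.const_mul (hK : IsKernelOn Ω K) {c : ℂ} (hc : 0 ≤ c) :
    IsKernelOn Ω (fun z w => c * K z w) :=
  (isKernelOn_const hc).mul hK

theorem IsKernelOn.pow (hK : IsKernelOn Ω K) (n : ℕ) :
    IsKernelOn Ω (fun z w => K z w ^ n) := by
  induction n with
  | zero => simpa using isKernelOn_one
  | succ n ih => simpa [pow_succ] using ih.mul hK

theorem isKernelOn_sum {ι : Type*} (s : Finset ι) (F : ι → (Fin g → ℂ) → (Fin g → ℂ) → ℂ)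
    (h : ∀ i ∈ s, IsKernelOn Ω (F i)) : IsKernelOn Ω (fun z w => ∑ i ∈ s, F i z w) := by
  classical
  induction s using Finset.induction_on with
  | empty => simpa using isKernelOn_zero
  | insert i s his ih =>
    have := (h i (Finset.mem_insert_self i s)).add
      (ih fun j hj => h j (Finset.mem_insert_of_mem hj))
    refine this.congr fun z _ w _ => ?_
    rw [Finset.sum_insert his]

/-- Pointwise limits of kernels are kernels. -/
theorem isKernelOn_of_tendsto {ι : Type*} {l : Filter ι} [l.NeBot]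
    (F : ι → (Fin g → ℂ) → (Fin g → ℂ) → ℂ)
    (h : ∀ i, IsKernelOn Ω (F i))
    (hlim : ∀ z ∈ Ω, ∀ w ∈ Ω, Tendsto (fun i => F i z w) l (𝓝 (K z w))) : IsKernelOn Ω K := by
  rw [isKernelOn_iff]
  constructor
  · intro z hz w hw
    have h1 : Tendsto (fun i => star (F i z w)) l (𝓝 (star (K z w))) :=
      (hlim z hz w hw).star
    have h2 : (fun i => star (F i z w)) = fun i => F i w z := by
      funext i
      exact ((isKernelOn_iff.1 (h i)).1 z hz w hw)
    rw [h2] at h1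
    exact tendsto_nhds_unique h1 (hlim w hw z hz)
  · intro x
    have h1 : Tendsto (fun i => x.sum fun a xa => x.sum fun b xb => star xa * F i a b * xb) l
        (𝓝 (x.sum fun a xa => x.sum fun b xb => star xa * K a b * xb)) := by
      simp only [Finsupp.sum]
      refine tendsto_finsetSum _ fun a _ => tendsto_finsetSum _ fun b _ => ?_
      exact (tendsto_const_nhds.mul (hlim a a.2 b b.2)).mul tendsto_const_nhds
    exact ge_of_tendsto' h1 fun i => (isKernelOn_iff.1 (h i)).2 x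

theorem isKernelOn_of_hasSum {ι : Type*} (F : ι → (Fin g → ℂ) → (Fin g → ℂ) → ℂ)
    (h : ∀ i, IsKernelOn Ω (F i))
    (hsum : ∀ z ∈ Ω, ∀ w ∈ Ω, HasSum (fun i => F i z w) (K z w)) : IsKernelOn Ω K :=
  isKernelOn_of_tendsto (l := atTop) (fun s : Finset ι => fun z w => ∑ i ∈ s, F i z w)
    (fun s => isKernelOn_sum s F fun i _ => h i) (fun z hz w hw => hsum z hz w hw)

/-- If `K` is a kernel with `|K| < 1` then `1/(1-K)` is a kernel. -/
theorem IsKernelOn.inv_one_sub (hK : IsKernelOn Ω K) (h1 : ∀ z ∈ Ω, ∀ w ∈ Ω, ‖K z w‖ < 1) :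
    IsKernelOn Ω (fun z w => (1 - K z w)⁻¹) :=
  isKernelOn_of_hasSum (fun n : ℕ => fun z w => K z w ^ n) (fun n => hK.pow n)
    (fun z hz w hw => hasSum_geometric_of_norm_lt_one (h1 z hz w hw))

/-- The standard inner product kernel. -/
theorem isKernelOn_inner (s : Finset (Fin g)) :
    IsKernelOn Ω (fun z w => ∑ j ∈ s, z j * star (w j)) :=
  isKernelOn_sum s (fun j z w => z j * star (w j)) fun j _ => isKernelOn_rankOne fun z => z j

theorem IsKernelOn.star_eq (hK : IsKernelOn Ω K) {z w : Fin g → ℂ} (hz : z ∈ Ω) (hw : w ∈ Ω) :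
    star (K z w) = K w z := (isKernelOn_iff.1 hK).1 z hz w hw

theorem IsKernelOn.diag_nonneg (hK : IsKernelOn Ω K) {z : Fin g → ℂ} (hz : z ∈ Ω) :
    0 ≤ K z z := by
  have := (isKernelOn_iff.1 hK).2 (Finsupp.single ⟨z, hz⟩ 1)
  simpa using this

/-- Cauchy-Schwarz for kernels. -/
theorem IsKernelOn.norm_sq_le (hK : IsKernelOn Ω K) {z w : Fin g → ℂ} (hz : z ∈ Ω) (hw : w ∈ Ω) :
    ‖K z w‖ ^ 2 ≤ ‖K z z‖ * ‖K w w‖ := by
  have hM : (Matrix.of fun a b : Fin 2 => K (![z, w] a) (![z, w] b)).PosSemidef := by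
    unfold IsKernelOn at hK
    have h := hK.submatrix (fun a : Fin 2 => (⟨![z, w] a, by fin_cases a <;> simp [hz, hw]⟩ : Ω))
    exact h
  have hdet := hM.det_nonneg
  rw [Matrix.det_fin_two] at hdet
  simp only [Matrix.of_apply, Matrix.cons_val_zero, Matrix.cons_val_one] at hdet
  have h1 : K z w * K w z = ((‖K z w‖ ^ 2 : ℝ) : ℂ) := by
    rw [← hK.star_eq hz hw, Complex.star_def, Complex.mul_conj, Complex.normSq_eq_norm_sq]
  have h2 : K z z = ((‖K z z‖ : ℝ) : ℂ) := by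
    have := hK.diag_nonneg hz
    exact Complex.eq_coe_norm_of_nonneg this
  have h3 : K w w = ((‖K w w‖ : ℝ) : ℂ) := by
    have := hK.diag_nonneg hw
    exact Complex.eq_coe_norm_of_nonneg this
  rw [h1, h2, h3, ← Complex.ofReal_mul, ← Complex.ofReal_sub] at hdet
  have := Complex.zero_le_real.1 hdet
  linarith

theorem norm_lt_one_of_diag (hK : IsKernelOn Ω K) {z w : Fin g → ℂ} (hz : z ∈ Ω) (hw : w ∈ Ω)
    (h1 : ‖K z z‖ < 1) (h2 : ‖K w w‖ < 1) : ‖K z w‖ < 1 := by
  have h := hK.norm_sq_le hz hw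
  have h3 := norm_nonneg (K z z)
  have h4 := norm_nonneg (K w w)
  have h5 := norm_nonneg (K z w)
  nlinarith

end Pool.Agent.Lib.MP_72b8ed_an
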