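import Pool.Agent.Lib.MP_72b8ed_an.Kernels

/-!
# Coefficient families of power series in `σ = ∑ x_j`
-/

open scoped ComplexOrder Topology
open Filter Set

namespace Pool.Agent.Lib.MP_72b8ed_an

variable {g : ℕ}

/-- Coefficient family of `∑ₙ cₙ (x₁ + ⋯ + x_g)ⁿ`. -/
noncomputable def lift (c : ℕ → ℝ) (b : Fin g →₀ ℕ) : ℝ := c b.degree * b.multinomial

theorem degree_eq_sum (b : Fin g →₀ ℕ) : (b.sum fun _ m => m) = b.degree := by
  rfl

theorem coeff_S_pow (b : Fin g →₀ ℕ) (n : ℕ) :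
    MvPolynomial.coeff b ((∑ i, MvPolynomial.X i : MvPolynomial (Fin g) ℝ) ^ n) =
      if b.degree = n then (b.multinomial : ℝ) else 0 := by
  rw [MvPolynomial.coeff_sum_X_pow_of_fintype, degree_eq_sum]
  split_ifs <;> simp

theorem vandermonde (b : Fin g →₀ ℕ) (i j : ℕ) :
    ∑ p ∈ Finset.HasAntidiagonal.antidiagonal b,
      (if p.1.degree = i then (p.1.multinomial : ℝ) else 0) *
        (if p.2.degree = j then (p.2.multinomial : ℝ) else 0) =
      if b.degree = i + j then (b.multinomial : ℝ) else 0 := by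
  classical
  have h := coeff_S_pow b (i + j)
  rw [pow_add, MvPolynomial.coeff_mul] at h
  rw [← h]
  refine Finset.sum_congr rfl fun p _ => ?_
  rw [coeff_S_pow, coeff_S_pow]

theorem lift_conv (c d : ℕ → ℝ) (b : Fin g →₀ ℕ) :
    ∑ p ∈ Finset.HasAntidiagonal.antidiagonal b, lift c p.1 * lift d p.2 =
      lift (fun n => ∑ q ∈ Finset.HasAntidiagonal.antidiagonal n, c q.1 * d q.2) b := by
  classical
  have key : ∀ p ∈ Finset.HasAntidiagonal.antidiagonal b, lift c p.1 * lift d p.2 =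
      ∑ q ∈ Finset.HasAntidiagonal.antidiagonal b.degree, c q.1 * d q.2 *
        ((if p.1.degree = q.1 then (p.1.multinomial : ℝ) else 0) *
        (if p.2.degree = q.2 then (p.2.multinomial : ℝ) else 0)) := by
    intro p hp
    have hp' : p.1 + p.2 = b := Finset.HasAntidiagonal.mem_antidiagonal.1 hp
    have hdeg : p.1.degree + p.2.degree = b.degree := by rw [← hp', map_add]
    rw [Finset.sum_eq_single (p.1.degree, p.2.degree)]
    · simp only [lift, if_true]; ring
    · intro q _ hq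
      by_cases h1 : p.1.degree = q.1
      · by_cases h2 : p.2.degree = q.2
        · exact absurd (Prod.ext h1.symm h2.symm) hq
        · simp [h2]
      · simp [h1]
    · intro h
      exact absurd (Finset.HasAntidiagonal.mem_antidiagonal.2 hdeg) h
  rw [Finset.sum_congr rfl key, Finset.sum_comm]
  have : ∀ q ∈ Finset.HasAntidiagonal.antidiagonal b.degree,
      ∑ p ∈ Finset.HasAntidiagonal.antidiagonal b, c q.1 * d q.2 *
        ((if p.1.degree = q.1 then (p.1.multinomial : ℝ) else 0) *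
        (if p.2.degree = q.2 then (p.2.multinomial : ℝ) else 0)) =
      c q.1 * d q.2 * (b.multinomial : ℝ) := by
    intro q hq
    rw [← Finset.mul_sum, vandermonde, if_pos (Finset.HasAntidiagonal.mem_antidiagonal.1 hq).symm]
  rw [Finset.sum_congr rfl this, ← Finset.sum_mul]
  rfl

theorem lift_add (c d : ℕ → ℝ) (b : Fin g →₀ ℕ) :
    lift (fun n => c n + d n) b = lift c b + lift d b := by
  simp [lift, add_mul]

theorem multinomial_pos' (b : Fin g →₀ ℕ) : 0 < (b.multinomial : ℝ) := by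
  rw [Finsupp.multinomial_eq]
  exact_mod_cast Nat.multinomial_pos _ _

theorem multinomial_zero' : (0 : Fin g →₀ ℕ).multinomial = 1 := by
  simp [Finsupp.multinomial_eq]

theorem multinomial_single' (j : Fin g) : (Finsupp.single j 1 : Fin g →₀ ℕ).multinomial = 1 := by
  rw [Finsupp.multinomial_eq, Finsupp.support_single _ one_ne_zero]
  simp

/-- sum over a fibre of `degree`. -/
theorem sum_fiber {R : Type*} [CommSemiring R] (t : Fin g → R) (n : ℕ) :
    ∑ b ∈ Finset.finsuppAntidiag (Finset.univ : Finset (Fin g)) n,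
      (b.multinomial : R) * ∏ j, t j ^ b j = (∑ j, t j) ^ n := by
  classical
  rw [Finset.sum_pow_eq_sum_piAntidiag]
  refine Finset.sum_bij' (fun b _ => (b : Fin g → ℕ))
    (fun f _ => Finsupp.equivFunOnFinite.symm f) ?_ ?_ ?_ ?_ ?_
  · intro b hb
    rw [Finset.mem_finsuppAntidiag] at hb
    rw [Finset.mem_piAntidiag]
    exact ⟨hb.1, fun i _ => Finset.mem_univ i⟩
  · intro f hf
    rw [Finset.mem_piAntidiag] at hf
    rw [Finset.mem_finsuppAntidiag]
    exact ⟨hf.1, Finset.subset_univ _⟩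
  · intro b _
    ext j; simp
  · intro f _
    ext j; simp
  · intro b _
    rw [Finsupp.multinomial_of_support_subset (s := Finset.univ) (Finset.subset_univ _)]

theorem mem_fiber_iff (b : Fin g →₀ ℕ) (n : ℕ) :
    b ∈ Finset.finsuppAntidiag (Finset.univ : Finset (Fin g)) n ↔ b.degree = n := by
  rw [Finset.mem_finsuppAntidiag, Finsupp.degree_eq_sum]
  exact ⟨fun h => h.1, fun h => ⟨h, Finset.subset_univ _⟩⟩

theorem hasSum_lift_fiber (c : ℕ → ℝ) (t : Fin g → ℂ) (n : ℕ) :
    HasSum (fun b : {b : Fin g →₀ ℕ // b.degree = n} =>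
      ((lift c b.1 : ℝ) : ℂ) * ∏ j, t j ^ b.1 j) (c n * (∑ j, t j) ^ n) := by
  classical
  have h1 : (c n : ℂ) * (∑ j, t j) ^ n =
      ∑ b ∈ Finset.finsuppAntidiag (Finset.univ : Finset (Fin g)) n,
        ((lift c b : ℝ) : ℂ) * ∏ j, t j ^ b j := by
    rw [← sum_fiber, Finset.mul_sum]
    refine Finset.sum_congr rfl fun b hb => ?_
    rw [lift, (mem_fiber_iff b n).1 hb]
    push_cast
    ring
  rw [h1]
  have h2 := Finset.hasSum (Finset.finsuppAntidiag (Finset.univ : Finset (Fin g)) n)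
    (fun b : Fin g →₀ ℕ => ((lift c b : ℝ) : ℂ) * ∏ j, t j ^ b j)
  let e : {b : Fin g →₀ ℕ // b.degree = n} ≃
      (Finset.finsuppAntidiag (Finset.univ : Finset (Fin g)) n : Set (Fin g →₀ ℕ)) :=
    Equiv.subtypeEquivRight fun b => (mem_fiber_iff b n).symm
  exact e.hasSum_iff.2 h2

theorem hasSum_lift_fiber_norm (c : ℕ → ℝ) (t : Fin g → ℂ) (n : ℕ) :
    HasSum (fun b : {b : Fin g →₀ ℕ // b.degree = n} =>
      ‖((lift c b.1 : ℝ) : ℂ) * ∏ j, t j ^ b.1 j‖) (|c n| * (∑ j, ‖t j‖) ^ n) := by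
  classical
  have h1 : |c n| * (∑ j, ‖t j‖) ^ n =
      ∑ b ∈ Finset.finsuppAntidiag (Finset.univ : Finset (Fin g)) n,
        ‖((lift c b : ℝ) : ℂ) * ∏ j, t j ^ b j‖ := by
    rw [← sum_fiber, Finset.mul_sum]
    refine Finset.sum_congr rfl fun b hb => ?_
    rw [lift, (mem_fiber_iff b n).1 hb]
    rw [norm_mul, Complex.norm_real, Real.norm_eq_abs, abs_mul, Nat.abs_cast, norm_prod]
    simp only [norm_pow]
    ring
  rw [h1]
  have h2 := Finset.hasSum (Finset.finsuppAntidiag (Finset.univ : Finset (Fin g)) n)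
    (fun b : Fin g →₀ ℕ => ‖((lift c b : ℝ) : ℂ) * ∏ j, t j ^ b j‖)
  let e : {b : Fin g →₀ ℕ // b.degree = n} ≃
      (Finset.finsuppAntidiag (Finset.univ : Finset (Fin g)) n : Set (Fin g →₀ ℕ)) :=
    Equiv.subtypeEquivRight fun b => (mem_fiber_iff b n).symm
  exact e.hasSum_iff.2 h2

theorem hasSum_lift (c : ℕ → ℝ) (t : Fin g → ℂ)
    (hs : Summable fun n => |c n| * (∑ j, ‖t j‖) ^ n) {a : ℂ}
    (ha : HasSum (fun n => (c n : ℂ) * (∑ j, t j) ^ n) a) :
    HasSum (fun b : Fin g →₀ ℕ => ((lift c b : ℝ) : ℂ) * ∏ j, t j ^ b j) a := by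
  have e := Equiv.sigmaFiberEquiv (fun b : Fin g →₀ ℕ => b.degree)
  rw [← (Equiv.sigmaFiberEquiv (fun b : Fin g →₀ ℕ => b.degree)).hasSum_iff]
  refine HasSum.sigma_of_hasSum (g := fun n => (c n : ℂ) * (∑ j, t j) ^ n) ha ?_ ?_
  · intro n
    exact hasSum_lift_fiber c t n
  · refine Summable.of_norm ?_
    rw [summable_sigma_of_nonneg (fun _ => norm_nonneg _)]
    refine ⟨fun n => (hasSum_lift_fiber_norm c t n).summable, ?_⟩
    refine hs.congr fun n => ?_
    exact ((hasSum_lift_fiber_norm c t n).tsum_eq).symm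

end Pool.Agent.Lib.MP_72b8ed_an
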