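import Pool.Agent.Lib.MP_72b8ed_an.Certificate

/-!
# The explicit sequences of the counterexample
-/

open scoped ComplexOrder Topology
open Filter Set

namespace Pool.Agent.Lib.MP_72b8ed_an

/-- coefficients of `3x/(4-x²)` -/
noncomputable def thetaSeq (n : ℕ) : ℝ := if Odd n then (3 / 4) * (1 / 4) ^ (n / 2) else 0

/-- coefficients of `(1+x)(4-x)/(2(2-x²))` -/
noncomputable def kSeq (n : ℕ) : ℝ :=
  (if Odd n then (3 / 4) * (1 / 2) ^ (n / 2) else (1 / 2) * (1 / 2) ^ (n / 2)) +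
    if n = 0 then 1 / 2 else 0

/-- coefficients of `x²(5+x²)/(2(2-x²)(4-x²))` -/
noncomputable def hSeq (n : ℕ) : ℝ :=
  (if Odd n then 0 else (7 / 4) * (1 / 2) ^ (n / 2) - (9 / 4) * (1 / 4) ^ (n / 2)) +
    if n = 0 then 1 / 2 else 0

theorem thetaSeq_nonneg (n : ℕ) : 0 ≤ thetaSeq n := by
  unfold thetaSeq; split_ifs <;> positivity

theorem thetaSeq_zero : thetaSeq 0 = 0 := by simp [thetaSeq]

theorem kSeq_pos (n : ℕ) : 0 < kSeq n := by
  unfold kSeq
  split_ifs <;> positivity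

theorem kSeq_zero : kSeq 0 = 1 := by norm_num [kSeq]

theorem hSeq_nonneg (n : ℕ) : 0 ≤ hSeq n := by
  unfold hSeq
  rcases Nat.even_or_odd' n with ⟨m, rfl | rfl⟩
  · have h1 : ¬ Odd (2 * m) := by simp
    rw [if_neg h1]
    have h2 : 2 * m / 2 = m := by omega
    rw [h2]
    rcases m with _ | m
    · norm_num
    · have h3 : 2 * (m + 1) ≠ 0 := by omega
      rw [if_neg h3]
      have h4 : (1 / 4 : ℝ) ^ (m + 1) ≤ (1 / 2) * (1 / 2) ^ (m + 1) := by
        have : (1 / 4 : ℝ) ^ (m + 1) = (1 / 2) ^ (m + 1) * (1 / 2) ^ (m + 1) := by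
          rw [← mul_pow]; norm_num
        rw [this]
        refine mul_le_mul_of_nonneg_right ?_ (by positivity)
        rw [pow_succ]
        have : (1 / 2 : ℝ) ^ m ≤ 1 := pow_le_one₀ (by norm_num) (by norm_num)
        linarith
      have h5 : (0 : ℝ) < (1 / 2) ^ (m + 1) := by positivity
      nlinarith
  · have h1 : Odd (2 * m + 1) := ⟨m, rfl⟩
    rw [if_pos h1]
    have : 2 * m + 1 ≠ 0 := by omega
    rw [if_neg this]; norm_num

theorem disj (n : ℕ) : thetaSeq n = 0 ∨ hSeq n = 0 := by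
  rcases Nat.even_or_odd' n with ⟨m, rfl | rfl⟩
  · left
    have h1 : ¬ Odd (2 * m) := by simp
    simp [thetaSeq]
  · right
    have h1 : Odd (2 * m + 1) := ⟨m, rfl⟩
    simp [hSeq]

theorem gen1 {R : Type*} [CommRing R] (x : R) : (1 + x) * (4 - x) = 4 + 3 * x - x ^ 2 := by ring

theorem gen2 {R : Type*} [CommRing R] (k x a b : R) :
    k * (a - b * x ^ 2) = k * a - (k * x ^ 2) * b := by ring

theorem gen3 {R : Type*} [CommRing R] (x a : R) : x ^ 2 * (a + x ^ 2) = a * x ^ 2 + x ^ 4 := by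
  ring

theorem gen4 {R : Type*} [CommRing R] (k x : R) :
    k * ((4 - x ^ 2) * (4 - 2 * x ^ 2)) = k * 16 - (k * x ^ 2) * 12 + (k * x ^ 4) * 2 := by ring

open PowerSeries in
theorem theta_mul : (PowerSeries.mk thetaSeq : PowerSeries ℝ) * (C 4 - X ^ 2) = C 3 * X := by
  ext n
  rw [mul_sub, map_sub, coeff_mul_C, coeff_mul_X_pow', coeff_C_mul, coeff_X]
  rcases n with _ | _ | n
  · norm_num [thetaSeq]
  · norm_num [thetaSeq]
  · have h1 : n + 1 + 1 ≠ 1 := by omega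
    have h2 : 2 ≤ n + 1 + 1 := by omega
    have h3 : n + 1 + 1 - 2 = n := by omega
    rw [if_neg h1, if_pos h2, h3, coeff_mk, coeff_mk]
    unfold thetaSeq
    rcases Nat.even_or_odd' n with ⟨m, rfl | rfl⟩
    · have h4 : ¬ Odd (2 * m) := by simp
      have h5 : ¬ Odd (2 * m + 1 + 1) := by
        rw [Nat.not_odd_iff_even]; exact ⟨m + 1, by ring⟩
      rw [if_neg h4, if_neg h5]; norm_num
    · have h4 : Odd (2 * m + 1) := ⟨m, rfl⟩
      have h5 : Odd (2 * m + 1 + 1 + 1) := ⟨m + 1, by ring⟩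
      have h6 : (2 * m + 1) / 2 = m := by omega
      have h7 : (2 * m + 1 + 1 + 1) / 2 = m + 1 := by omega
      rw [if_pos h4, if_pos h5, h6, h7, pow_succ]; ring

open PowerSeries in
theorem k_mul : (PowerSeries.mk kSeq : PowerSeries ℝ) * (C 4 - C 2 * X ^ 2) =
    (1 + X) * (C 4 - X) := by
  have e : ((1 : PowerSeries ℝ) + X) * (C 4 - X) = C 4 + C 3 * X - X ^ 2 := by
    rw [show (C 4 : PowerSeries ℝ) = 4 from map_ofNat _ 4,
      show (C 3 : PowerSeries ℝ) = 3 from map_ofNat _ 3]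
    exact gen1 X
  have e2 : (PowerSeries.mk kSeq : PowerSeries ℝ) * (C 4 - C 2 * X ^ 2) =
      PowerSeries.mk kSeq * C 4 - (PowerSeries.mk kSeq * X ^ 2) * C 2 := gen2 _ _ _ _
  rw [e, e2]
  ext n
  rw [map_sub, coeff_mul_C, coeff_mul_C, coeff_mul_X_pow', map_sub, map_add, coeff_C_mul, coeff_X,
    coeff_C, coeff_X_pow]
  rcases n with _ | _ | n
  · norm_num [kSeq]
  · norm_num [kSeq]
  · have h1 : n + 1 + 1 ≠ 1 := by omega
    have h2 : 2 ≤ n + 1 + 1 := by omega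
    have h3 : n + 1 + 1 - 2 = n := by omega
    have h0 : n + 1 + 1 ≠ 0 := by omega
    rw [if_neg h1, if_pos h2, if_neg h0, h3, coeff_mk, coeff_mk]
    unfold kSeq
    rw [if_neg h0]
    rcases Nat.even_or_odd' n with ⟨m, rfl | rfl⟩
    · have h4 : ¬ Odd (2 * m) := by simp
      have h5 : ¬ Odd (2 * m + 1 + 1) := by
        rw [Nat.not_odd_iff_even]; exact ⟨m + 1, by ring⟩
      have h6 : (2 * m) / 2 = m := by omega
      have h7 : (2 * m + 1 + 1) / 2 = m + 1 := by omega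
      rw [if_neg h4, if_neg h5, h6, h7, pow_succ]
      rcases m with _ | m
      · norm_num
      · have h8 : 2 * (m + 1) ≠ 0 := by omega
        have h9 : ¬ (2 * (m + 1) + 1 + 1 = 2) := by omega
        rw [if_neg h8, if_neg h9]; ring
    · have h4 : Odd (2 * m + 1) := ⟨m, rfl⟩
      have h5 : Odd (2 * m + 1 + 1 + 1) := ⟨m + 1, by ring⟩
      have h6 : (2 * m + 1) / 2 = m := by omega
      have h7 : (2 * m + 1 + 1 + 1) / 2 = m + 1 := by omega
      have h8 : 2 * m + 1 ≠ 0 := by omega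
      have h9 : ¬ (2 * m + 1 + 1 + 1 = 2) := by omega
      rw [if_pos h4, if_pos h5, h6, h7, if_neg h8, if_neg h9, pow_succ]; ring

open PowerSeries in
theorem h_mul : (PowerSeries.mk hSeq : PowerSeries ℝ) * ((C 4 - X ^ 2) * (C 4 - C 2 * X ^ 2)) =
    X ^ 2 * (C 5 + X ^ 2) := by
  have e : (X : PowerSeries ℝ) ^ 2 * (C 5 + X ^ 2) = C 5 * X ^ 2 + X ^ 4 := gen3 _ _
  have e2 : (PowerSeries.mk hSeq : PowerSeries ℝ) * ((C 4 - X ^ 2) * (C 4 - C 2 * X ^ 2)) =
      PowerSeries.mk hSeq * C 16 - (PowerSeries.mk hSeq * X ^ 2) * C 12 +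
        (PowerSeries.mk hSeq * X ^ 4) * C 2 := by
    rw [show (C 4 : PowerSeries ℝ) = 4 from map_ofNat _ 4,
      show (C 2 : PowerSeries ℝ) = 2 from map_ofNat _ 2,
      show (C 16 : PowerSeries ℝ) = 16 from map_ofNat _ 16,
      show (C 12 : PowerSeries ℝ) = 12 from map_ofNat _ 12]
    exact gen4 _ _
  rw [e, e2]
  ext n
  rw [map_add, map_sub, coeff_mul_C, coeff_mul_C, coeff_mul_C, coeff_mul_X_pow', coeff_mul_X_pow',
    map_add, coeff_C_mul, coeff_X_pow, coeff_X_pow]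
  rcases n with _ | _ | _ | _ | n
  · norm_num [hSeq]
  · norm_num [hSeq]
  · norm_num [hSeq]
  · have h3 : Odd 3 := ⟨1, rfl⟩
    norm_num [hSeq, h3]
  · have h1 : ¬ (n + 1 + 1 + 1 + 1 = 2) := by omega
    have h2 : 2 ≤ n + 1 + 1 + 1 + 1 := by omega
    have h2' : 4 ≤ n + 1 + 1 + 1 + 1 := by omega
    have h3 : n + 1 + 1 + 1 + 1 - 2 = n + 2 := by omega
    have h3' : n + 1 + 1 + 1 + 1 - 4 = n := by omega
    have h0 : n + 1 + 1 + 1 + 1 ≠ 0 := by omega
    have h0' : n + 2 ≠ 0 := by omega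
    rw [if_neg h1, if_pos h2, if_pos h2', h3, h3', coeff_mk, coeff_mk, coeff_mk]
    unfold hSeq
    rw [if_neg h0, if_neg h0']
    rcases Nat.even_or_odd' n with ⟨m, rfl | rfl⟩
    · have h4 : ¬ Odd (2 * m) := by simp
      have h5 : ¬ Odd (2 * m + 1 + 1 + 1 + 1) := by
        rw [Nat.not_odd_iff_even]; exact ⟨m + 2, by ring⟩
      have h5' : ¬ Odd (2 * m + 2) := by
        rw [Nat.not_odd_iff_even]; exact ⟨m + 1, by ring⟩
      have h6 : (2 * m) / 2 = m := by omega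
      have h7 : (2 * m + 1 + 1 + 1 + 1) / 2 = m + 2 := by omega
      have h7' : (2 * m + 2) / 2 = m + 1 := by omega
      rw [if_neg h4, if_neg h5, if_neg h5', h6, h7, h7', pow_succ, pow_succ, pow_succ, pow_succ]
      rcases m with _ | m
      · norm_num
      · have h8 : 2 * (m + 1) ≠ 0 := by omega
        have h9 : ¬ (2 * (m + 1) + 1 + 1 + 1 + 1 = 4) := by omega
        rw [if_neg h8, if_neg h9]; ring
    · have h4 : Odd (2 * m + 1) := ⟨m, rfl⟩
      have h5 : Odd (2 * m + 1 + 1 + 1 + 1 + 1) := ⟨m + 2, by ring⟩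
      have h5' : Odd (2 * m + 1 + 2) := ⟨m + 1, by ring⟩
      have h8 : 2 * m + 1 ≠ 0 := by omega
      have h9 : ¬ (2 * m + 1 + 1 + 1 + 1 + 1 = 4) := by omega
      rw [if_pos h4, if_pos h5, if_pos h5', if_neg h8, if_neg h9]; ring

theorem generic_identity {R : Type*} [CommRing R] [IsDomain R] (T K H x : R)
    (h1 : T * (4 - x ^ 2) = 3 * x) (h2 : K * (4 - 2 * x ^ 2) = (1 + x) * (4 - x))
    (h3 : H * ((4 - x ^ 2) * (4 - 2 * x ^ 2)) = x ^ 2 * (5 + x ^ 2))
    (hne : (4 - x ^ 2) * (4 - 2 * x ^ 2) ≠ 0) : T * K = K + H - 1 := by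
  have key : (T * K - (K + H - 1)) * ((4 - x ^ 2) * (4 - 2 * x ^ 2)) = 0 := by
    linear_combination (K * (4 - 2 * x ^ 2)) * h1 + (3 * x - (4 - x ^ 2)) * h2 - h3
  exact sub_eq_zero.1 ((mul_eq_zero.1 key).resolve_right hne)

open PowerSeries in
theorem theta_mul_k : (PowerSeries.mk thetaSeq : PowerSeries ℝ) * PowerSeries.mk kSeq =
    PowerSeries.mk kSeq + PowerSeries.mk hSeq - 1 := by
  have h2 : (C 2 : PowerSeries ℝ) = 2 := map_ofNat _ 2
  have h3 : (C 3 : PowerSeries ℝ) = 3 := map_ofNat _ 3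
  have h4 : (C 4 : PowerSeries ℝ) = 4 := map_ofNat _ 4
  have h5 : (C 5 : PowerSeries ℝ) = 5 := map_ofNat _ 5
  have hne : ((C 4 - X ^ 2) * (C 4 - C 2 * X ^ 2) : PowerSeries ℝ) ≠ 0 := by
    intro h
    have := congrArg (constantCoeff (R := ℝ)) h
    simp at this
  have e1 := theta_mul
  have e2 := k_mul
  have e3 := h_mul
  rw [h4, h3] at e1
  rw [h4, h2] at e2
  rw [h4, h2, h5] at e3
  rw [h4, h2] at hne
  exact generic_identity _ _ _ _ e1 e2 e3 hne

theorem conv_seq (n : ℕ) (hn : n ≠ 0) :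
    ∑ q ∈ Finset.HasAntidiagonal.antidiagonal n, thetaSeq q.1 * kSeq q.2 =
      kSeq n + hSeq n := by
  have h := congrArg (PowerSeries.coeff (R := ℝ) n) theta_mul_k
  rw [PowerSeries.coeff_mul, map_sub, map_add, PowerSeries.coeff_mk, PowerSeries.coeff_mk,
    PowerSeries.coeff_one, if_neg hn, sub_zero] at h
  simpa using h

theorem hasSum_theta (r : ℝ) (hr : |r| < 2) :
    HasSum (fun n => thetaSeq n * r ^ n) (3 * r / (4 - r ^ 2)) := by
  have hr2 : |r ^ 2 / 4| < 1 := by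
    rw [abs_div, abs_pow]
    norm_num
    rw [div_lt_one (by norm_num)]
    have := abs_nonneg r
    rw [← sq_abs]
    nlinarith
  have h1 : HasSum (fun k : ℕ => thetaSeq (2 * k) * r ^ (2 * k)) 0 := by
    convert hasSum_zero with k
    simp [thetaSeq]
  have h2 : HasSum (fun k : ℕ => thetaSeq (2 * k + 1) * r ^ (2 * k + 1))
      (3 * r / (4 - r ^ 2)) := by
    have h3 : HasSum (fun k : ℕ => 3 / 4 * r * (r ^ 2 / 4) ^ k) (3 / 4 * r * (1 - r ^ 2 / 4)⁻¹) :=
      (hasSum_geometric_of_abs_lt_one hr2).mul_left (3 / 4 * r)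
    convert h3 using 1
    · funext k
      have h4 : Odd (2 * k + 1) := ⟨k, rfl⟩
      have h5 : (2 * k + 1) / 2 = k := by omega
      rw [thetaSeq, if_pos h4, h5, pow_succ, pow_mul, div_pow, div_pow]
      ring
    · have h6 : (4 - r ^ 2) ≠ 0 := by
        rw [abs_div, div_lt_one (by norm_num)] at hr2
        have := abs_lt.1 hr2
        norm_num at this
        intro h
        linarith [this.2]
      have h7 : (1 - r ^ 2 / 4) ≠ 0 := by
        intro h
        apply h6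
        linarith
      field_simp
  have := HasSum.even_add_odd (f := fun n => thetaSeq n * r ^ n) h1 h2
  simpa using this

theorem hasSum_k (r : ℂ) (hr : ‖r‖ ^ 2 < 2) :
    HasSum (fun n => (kSeq n : ℂ) * r ^ n) ((1 + r) * (4 - r) / (2 * (2 - r ^ 2))) := by
  have hr2 : ‖r ^ 2 / 2‖ < 1 := by
    rw [norm_div, norm_pow]
    norm_num
    rw [div_lt_one (by norm_num)]
    exact hr
  have hne : (2 - r ^ 2) ≠ 0 := by
    intro h
    have : r ^ 2 = 2 := by linear_combination -h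
    rw [this] at hr2
    norm_num at hr2
  have hne' : (1 - r ^ 2 / 2) ≠ 0 := by
    intro h
    apply hne
    linear_combination 2 * h
  have h0 := hasSum_geometric_of_norm_lt_one hr2
  have h1 : HasSum (fun k : ℕ => (kSeq (2 * k) : ℂ) * r ^ (2 * k))
      (1 / 2 * (1 - r ^ 2 / 2)⁻¹ + 1 / 2) := by
    have h3 : HasSum (fun k : ℕ => 1 / 2 * (r ^ 2 / 2) ^ k) (1 / 2 * (1 - r ^ 2 / 2)⁻¹) :=
      h0.mul_left (1 / 2)
    have h4 : HasSum (fun k : ℕ => if k = 0 then (1 / 2 : ℂ) else 0) (1 / 2) := hasSum_ite_eq 0 _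
    convert h3.add h4 using 1
    funext k
    have h5 : ¬ Odd (2 * k) := by simp
    have h6 : (2 * k) / 2 = k := by omega
    rw [kSeq, if_neg h5, h6, pow_mul, div_pow]
    rcases k with _ | k
    · norm_num
    · have h7 : 2 * (k + 1) ≠ 0 := by omega
      rw [if_neg h7, if_neg (Nat.succ_ne_zero k)]
      push_cast
      rw [div_pow]
      ring
  have h2 : HasSum (fun k : ℕ => (kSeq (2 * k + 1) : ℂ) * r ^ (2 * k + 1))
      (3 / 4 * r * (1 - r ^ 2 / 2)⁻¹) := by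
    have h3 : HasSum (fun k : ℕ => 3 / 4 * r * (r ^ 2 / 2) ^ k) (3 / 4 * r * (1 - r ^ 2 / 2)⁻¹) :=
      h0.mul_left (3 / 4 * r)
    convert h3 using 1
    funext k
    have h4 : Odd (2 * k + 1) := ⟨k, rfl⟩
    have h5 : (2 * k + 1) / 2 = k := by omega
    have h7 : 2 * k + 1 ≠ 0 := by omega
    rw [kSeq, if_pos h4, h5, if_neg h7, pow_succ, pow_mul, div_pow]
    push_cast
    rw [div_pow]
    ring
  have h := HasSum.even_add_odd (f := fun n => (kSeq n : ℂ) * r ^ n) h1 h2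
  convert h using 1
  field_simp
  ring

end Pool.Agent.Lib.MP_72b8ed_an
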